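import Pool.Agent.H71.WE.Targets

set_option autoImplicit false
set_option linter.unusedSectionVars false

namespace Pool.Agent.H57.WE

open Finset Pool.Agent.H71.WE

section
variable {V E : Type} [Fintype V] [DecidableEq V] [DecidableEq E]

theorem cn_union_le (G : Gr V E) (B C : Finset E) (X : Finset V) :
    cn G (B ∪ C) X ≤ cn G B X + cn G C X := by
  unfold cn
  rw [filter_union]
  exact card_union_le _ _

theorem auxA (h2 : T_LFT) (h3 : T_PTH) (h4 : T_RES)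
    (G : Gr V E) (A : Finset E) (r : ℕ) (u v : V) (e t q : E)
    (G' : Gr {x : V // x ≠ v} E) (A' : Finset E) (φ : E → Finset E)
    (hLf : Lf G A G' A' Subtype.val φ) (hcv : cn G A {v} = r + 2)
    (heA : e ∈ A) (heA' : e ∈ A') (htA' : t ∈ A') (het : e ≠ t)
    (hqA : q ∈ A) (hqe : q ≠ e) (hφe : φ e = {e, q}) (hφt : φ t = {t})
    (hje : Jn G e v u) (htv : G.s t ≠ v ∧ G.t t ≠ v)
    (hjq : Jn G q v (G'.t e).1) (huv : u ≠ v)
    (α β : {x : V // x ≠ v}) (P' Q' : Finset E)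
    (hPA : P' ⊆ A') (hQA : Q' ⊆ A') (hd : Disjoint P' Q') (heP : e ∉ P') (heQ : e ∉ Q')
    (htP : t ∉ P') (htQ : t ∉ Q') (hcP : Co G' P' ⟨u, huv⟩ α) (hcQ : Co G' Q' (G'.t e) β)
    (hr : Ec G' (A' \ (P' ∪ Q' ∪ {e, t})) r) :
    ∃ P1 P2 : Finset E, P1 ⊆ A ∧ P2 ⊆ A ∧ Disjoint P1 P2 ∧ t ∉ P1 ∧ t ∉ P2 ∧
      Pt G P1 v α.1 ∧ Pt G P2 v β.1 ∧ Ec G (A \ (P1 ∪ P2 ∪ {t})) r := by
  obtain ⟨l1, -, l3⟩ := h2 _ _ _ _ G A G' A' _ φ hLf
  have c1 : Co G (insert e (P'.biUnion φ)) v α.1 := by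
    have := co_trans (co_edge hje) (l1 P' hPA ⟨u, huv⟩ α hcP)
    rwa [singleton_union] at this
  have c2 : Co G (insert q (Q'.biUnion φ)) v β.1 := by
    have := co_trans (co_edge hjq) (l1 Q' hQA (G'.t e) β hcQ)
    rwa [singleton_union] at this
  have hsubP : P'.biUnion φ ⊆ A := by
    intro x hx
    obtain ⟨g, hg, hx⟩ := mem_biUnion.1 hx
    exact hLf.sub g (hPA hg) hx
  have hsubQ : Q'.biUnion φ ⊆ A := by
    intro x hx
    obtain ⟨g, hg, hx⟩ := mem_biUnion.1 hx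
    exact hLf.sub g (hQA hg) hx
  have hnot : ∀ R : Finset E, R ⊆ A' → e ∉ R → ∀ x ∈ R.biUnion φ, x ∉ φ e := by
    intro R hR heR x hx hxe
    obtain ⟨g, hg, hx⟩ := mem_biUnion.1 hx
    have hge : g ≠ e := fun h => heR (h ▸ hg)
    exact (disjoint_left.1 (hLf.dis g (hR hg) e heA' hge)) hx hxe
  have hnott : ∀ R : Finset E, R ⊆ A' → t ∉ R → ∀ x ∈ R.biUnion φ, x ∉ φ t := by
    intro R hR heR x hx hxe
    obtain ⟨g, hg, hx⟩ := mem_biUnion.1 hx
    have hge : g ≠ t := fun h => heR (h ▸ hg)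
    exact (disjoint_left.1 (hLf.dis g (hR hg) t htA' hge)) hx hxe
  have hdis := l3 P' Q' hPA hQA hd
  have hqt : q ≠ t := by
    intro h
    have := disjoint_left.1 (hLf.dis e heA' t htA' het) (show q ∈ φ e by rw [hφe]; simp)
    apply this
    rw [hφt, h]
    exact mem_singleton_self t
  have hdc : Disjoint (insert e (P'.biUnion φ)) (insert q (Q'.biUnion φ)) := by
    rw [disjoint_left]
    intro x hx hx'
    rcases mem_insert.1 hx with hx | hx
    · rcases mem_insert.1 hx' with hx' | hx'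
      · exact hqe (hx'.symm.trans hx)
      · apply hnot Q' hQA heQ x hx'
        rw [hφe, hx]; simp
    · rcases mem_insert.1 hx' with hx' | hx'
      · apply hnot P' hPA heP x hx
        rw [hφe, hx']; simp
      · exact disjoint_left.1 hdis hx hx'
  have ht1 : t ∉ insert e (P'.biUnion φ) := by
    intro h
    rcases mem_insert.1 h with h | h
    · exact het h.symm
    · apply hnott P' hPA htP t h
      rw [hφt]; simp
  have ht2 : t ∉ insert q (Q'.biUnion φ) := by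
    intro h
    rcases mem_insert.1 h with h | h
    · exact hqt h.symm
    · apply hnott Q' hQA htQ t h
      rw [hφt]; simp
  obtain ⟨P1, hP1, hp1⟩ := pt_exists c1
  obtain ⟨P2, hP2, hp2⟩ := pt_exists c2
  have hA1 : insert e (P'.biUnion φ) ⊆ A := by
    intro x hx
    rcases mem_insert.1 hx with rfl | hx
    · exact heA
    · exact hsubP hx
  have hA2 : insert q (Q'.biUnion φ) ⊆ A := by
    intro x hx
    rcases mem_insert.1 hx with rfl | hx
    · exact hqA
    · exact hsubQ hx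
  have htA : t ∈ A := hLf.sub t htA' (by rw [hφt]; exact mem_singleton_self t)
  refine ⟨P1, P2, hP1.trans hA1, hP2.trans hA2, disjoint_of_subset_left hP1
    (disjoint_of_subset_right hP2 hdc), fun h => ht1 (hP1 h), fun h => ht2 (hP2 h), hp1, hp2, ?_⟩
  intro X hX hXu
  have hmain := h4 V E G A v G' A' φ hLf (P' ∪ Q' ∪ {e, t}) (P1 ∪ P2 ∪ {t}) r (fun _ => 0)
    (fun _ => rfl) ?_ ?_ ?_ ?_ X hX hXu
  · simpa using hmain
  · intro x hx
    simp only [mem_union, mem_insert, mem_singleton] at hx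
    rcases hx with (hx | hx) | rfl | rfl
    · exact hPA hx
    · exact hQA hx
    · exact heA'
    · exact htA'
  · intro x hx
    have key : ∀ g ∈ P' ∪ Q' ∪ {e, t}, x ∈ φ g → x ∈ (P' ∪ Q' ∪ {e, t}).biUnion φ :=
      fun g hg hx => mem_biUnion.2 ⟨g, hg, hx⟩
    simp only [mem_union, mem_singleton] at hx
    rcases hx with (hx | hx) | hx
    · rcases mem_insert.1 (hP1 hx) with hx | hx
      · exact key e (by simp) (by rw [hφe, hx]; simp)
      · obtain ⟨g, hg, hx⟩ := mem_biUnion.1 hx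
        exact key g (by simp [hg]) hx
    · rcases mem_insert.1 (hP2 hx) with hx | hx
      · exact key e (by simp) (by rw [hφe, hx]; simp)
      · obtain ⟨g, hg, hx⟩ := mem_biUnion.1 hx
        exact key g (by simp [hg]) hx
    · exact key t (by simp) (by rw [hφt, hx]; simp)
  · intro Y hY hYu
    simpa using hr _ hY hYu
  · have hU : P1 ∪ P2 ∪ {t} ⊆ A := by
      intro x hx
      simp only [mem_union, mem_singleton] at hx
      rcases hx with (hx | hx) | rfl
      · exact hA1 (hP1 hx)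
      · exact hA2 (hP2 hx)
      · exact htA
    have e1 := cn_sdiff G hU {v}
    have e2 := cn_union_le G (P1 ∪ P2) {t} {v}
    have e3 := cn_union_le G P1 P2 {v}
    have e4 : cn G P1 {v} ≤ 1 := (h3 V E G P1 v α.1 hp1).2.2.1
    have e5 : cn G P2 {v} ≤ 1 := (h3 V E G P2 v β.1 hp2).2.2.1
    have e6 : cn G {t} {v} = 0 := by
      unfold cn
      rw [card_eq_zero, filter_eq_empty_iff]
      intro g hg hcg
      rw [mem_singleton] at hg
      subst hg
      unfold Cr at hcg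
      simp only [mem_singleton] at hcg
      rcases hcg with h | h
      · exact htv.1 h.1
      · exact htv.2 h.2
    show r ≤ cn G (A \ (P1 ∪ P2 ∪ {t})) {v} + 0
    omega

end

theorem pf_GA (h0 : T_RQ) (h1 : T_CSP) (h2 : T_LFT) (h3 : T_PTH) (h4 : T_RES) : T_GA := by
  intro V E _ _ _ G A r u v a b e t hG hva hvb hcv hcu hIG
  obtain ⟨hev, hEc, heA, htA, het, huv, hab, hje, hjt⟩ := hG
  have hst : G.s e ≠ G.t e := by
    rcases hje with ⟨h, h'⟩ | ⟨h, h'⟩
    · rw [h, h']; exact huv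
    · rw [h, h']; exact huv.symm
  have hev2 : Even (r + 2) := hev.add (by decide)
  obtain ⟨G', A', φ, k1, k2, k3, k4, k5, k6, -, k8⟩ := h1 V E G A v (fun _ => r + 2)
    ((h0 V v).1 (r + 2) hev2) (by rw [hcv]; exact hev2)
    (fun X hvX hX _ => hEc X hX (fun h => hvX (by rw [h]; exact mem_univ v))) e heA hst
  have hev' : G.s e = v ∨ G.t e = v := by
    rcases hje with ⟨h, h'⟩ | ⟨h, h'⟩
    · exact Or.inr h'
    · exact Or.inl h
  obtain ⟨q, hqA, hqe, hφe, hj1, hj2⟩ := k6 e k2 hev'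
  have hsu : (G'.s e).1 = u := by
    rcases hje with ⟨h, h'⟩ | ⟨h, h'⟩ <;> rcases hj1 with ⟨g, g'⟩ | ⟨g, g'⟩
    · exact absurd (h.symm.trans g) huv
    · exact g.symm.trans h
    · exact g'.symm.trans h'
    · exact absurd (h'.symm.trans g') huv
  have hsu' : G'.s e = ⟨u, huv⟩ := Subtype.ext hsu
  have hne : univ.erase v ≠ ({u} : Finset V) := by
    intro h
    have ha : a ∈ univ.erase v := mem_erase.2 ⟨hva.symm, mem_univ a⟩
    have hb : b ∈ univ.erase v := mem_erase.2 ⟨hvb.symm, mem_univ b⟩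
    rw [h, mem_singleton] at ha hb
    exact hab (ha.trans hb.symm)
  have hux : (⟨u, huv⟩ : {x : V // x ≠ v}) ≠ G'.t e := by
    intro h
    exact k8 ⟨u, huv⟩ hcu hne e k2 hev' ⟨hsu', h.symm⟩
  have htv : G.s t ≠ v ∧ G.t t ≠ v := by
    rcases hjt with ⟨h, h'⟩ | ⟨h, h'⟩
    · rw [h, h']; exact ⟨hva.symm, hvb.symm⟩
    · rw [h, h']; exact ⟨hvb.symm, hva.symm⟩
  obtain ⟨htA', hts, htt, hφt⟩ := k5 t htA htv.1 htv.2
  have hjt' : Jn G' t ⟨a, hva.symm⟩ ⟨b, hvb.symm⟩ := by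
    rcases hjt with ⟨h, h'⟩ | ⟨h, h'⟩
    · left
      exact ⟨Subtype.ext (hts.trans h), Subtype.ext (htt.trans h')⟩
    · right
      exact ⟨Subtype.ext (hts.trans h), Subtype.ext (htt.trans h')⟩
  have hGH : GH G' A' r ⟨u, huv⟩ (G'.t e) ⟨a, hva.symm⟩ ⟨b, hvb.symm⟩ e t := by
    refine ⟨hev, fun X hX hXu => k4 X hX hXu, k2, htA', het, hux, ?_, Or.inl ⟨hsu', rfl⟩, hjt'⟩
    intro h
    exact hab (congrArg Subtype.val h)
  have hje' : Jn G e v u := jn_symm hje
  obtain ⟨P', Q', hPA, hQA, hd, heP, heQ, htP, htQ, hor, hr⟩ := hIG G' A' _ _ _ _ e t hGH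
  rcases hor with ⟨hp, hq⟩ | ⟨hp, hq⟩
  · obtain ⟨P1, P2, g1, g2, g3, g4, g5, g6, g7, g8⟩ := auxA h2 h3 h4 G A r u v e t q G' A' φ k3
      hcv heA k2 htA' het hqA hqe hφe hφt hje' htv hj2 huv _ _ P' Q' hPA hQA hd heP heQ htP htQ
      hp hq hr
    exact ⟨P1, P2, g1, g2, g3, g4, g5, g6, g7, g8⟩
  · obtain ⟨P1, P2, g1, g2, g3, g4, g5, g6, g7, g8⟩ := auxA h2 h3 h4 G A r u v e t q G' A' φ k3
      hcv heA k2 htA' het hqA hqe hφe hφt hje' htv hj2 huv _ _ P' Q' hPA hQA hd heP heQ htP htQ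
      hp hq hr
    refine ⟨P2, P1, g2, g1, g3.symm, g5, g4, g7, g6, ?_⟩
    rw [union_comm P2 P1]
    exact g8

end Pool.Agent.H57.WE
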