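import Pool.Agent.H57.WE.GB3

set_option autoImplicit false
set_option linter.unusedSectionVars false

namespace Pool.Agent.H57.WE

open Finset Pool.Agent.H71.WE

section
variable {V E : Type} [Fintype V] [DecidableEq V] [DecidableEq E]

theorem ctr_none (S : Finset V) (x : V) : ctr S x = none ↔ x ∈ S := by
  unfold ctr
  split_ifs with h
  · simp [h]
  · simp [h]

theorem ctr_inj (S : Finset V) (x y : V) (hx : x ∉ S) (hxy : ctr S x = ctr S y) : x = y := by
  have hy : y ∉ S := by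
    intro h
    rw [(ctr_none S y).2 h] at hxy
    exact hx ((ctr_none S x).1 hxy)
  unfold ctr at hxy
  rw [dif_neg hx, dif_neg hy] at hxy
  have := Option.some.inj hxy
  exact congrArg Subtype.val this

theorem pre_none (S : Finset V) : pre (ctr S) {none} = S := by
  ext x
  unfold pre
  simp [ctr_none]

theorem jn_mp {W : Type} (G : Gr V E) (f : V → W) {e : E} {a b : V} (h : Jn G e a b) :
    Jn (mp G f) e (f a) (f b) := by
  rcases h with h | h
  · left; exact ⟨congrArg f h.1, congrArg f h.2⟩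
  · right; exact ⟨congrArg f h.1, congrArg f h.2⟩

theorem cr_mp {W : Type} [Fintype W] [DecidableEq W] (G : Gr V E) (f : V → W) (Z : Finset W)
    (g : E) : Cr (mp G f) Z g ↔ Cr G (pre f Z) g := by
  unfold Cr mp pre
  simp

theorem aux (h1 : T_CUT) (h2 : T_GLU) (h3 : T_CTR) (h4 : T_TRN) (h5 : T_QCT)
    (G : Gr V E) (A : Finset E) (r : ℕ) (u v a b : V) (e t : E) (S : Finset V)
    (hG : GH G A r u v a b e t) (hvS : v ∈ S) (huS : u ∉ S) (haS : a ∉ S) (hbS : b ∉ S)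
    (hcS : cn G A S = r + 2) (α β : V) (hα : α ∉ S) (hβ : β ∉ S) (P' Q' : Finset E)
    (hPA : P' ⊆ A) (hQA : Q' ⊆ A) (hd : Disjoint P' Q') (heP : e ∉ P') (heQ : e ∉ Q')
    (htP : t ∉ P') (htQ : t ∉ Q') (hcP : Co (mp G (ctr S)) P' (ctr S u) (ctr S α))
    (hcQ : Co (mp G (ctr S)) Q' (ctr S v) (ctr S β))
    (hr : Ec (mp G (ctr S)) (A \ (P' ∪ Q' ∪ {e, t})) r) :
    ∃ P Q : Finset E, P ⊆ A ∧ Q ⊆ A ∧ Disjoint P Q ∧ e ∉ P ∧ e ∉ Q ∧ t ∉ P ∧ t ∉ Q ∧
      (Co G P u α ∧ Co G Q v β) ∧ Ec G (A \ (P ∪ Q ∪ {e, t})) r := by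
  obtain ⟨hev, hEc, heA, htA, het, huv, hab, hje, hjt⟩ := hG
  have hSu : S ≠ univ := by
    intro h; rw [h] at huS; exact huS (mem_univ u)
  have hSne : S.Nonempty := ⟨v, hvS⟩
  have hcre : Cr G S e := (jn_cr hje S).2 (Or.inr ⟨huS, hvS⟩)
  obtain ⟨hc1, -, hc3⟩ := h3 V E G
  obtain ⟨hc4, hc5, hc6, hc7, -⟩ := hc3 S hSne
  have hcv : ctr S v = none := (ctr_none S v).2 hvS
  -- a crossing edge of `Q'`
  obtain ⟨f, hfQ, hfc⟩ := hcQ {none} (by rw [hcv]; exact mem_singleton_self _) (by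
    rw [mem_singleton, ctr_none]; exact hβ)
  rw [cr_mp, pre_none] at hfc
  have hfA : f ∈ A := hQA hfQ
  have hef : e ≠ f := fun h => heQ (h ▸ hfQ)
  -- at most two crossing edges
  have hU'A : P' ∪ Q' ∪ {e, t} ⊆ A := by
    intro x hx
    simp only [mem_union, mem_insert, mem_singleton] at hx
    rcases hx with (hx | hx) | rfl | rfl
    · exact hPA hx
    · exact hQA hx
    · exact heA
    · exact htA
  have hnu : ({none} : Finset (Option {x : V // x ∉ S})) ≠ univ := by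
    intro h
    have h6 : ctr S u ∈ ({none} : Finset (Option {x : V // x ∉ S})) := by
      rw [h]; exact mem_univ _
    rw [mem_singleton, ctr_none] at h6
    exact huS h6
  have h6 := hr {none} ⟨none, mem_singleton_self _⟩ hnu
  rw [hc1, pre_none] at h6
  have h7 := cn_sdiff G hU'A S
  have h8 : cn G (P' ∪ Q' ∪ {e, t}) S ≤ 2 := by omega
  have hkey : ∀ g ∈ P' ∪ Q' ∪ {e, t}, Cr G S g → g = e ∨ g = f := by
    intro g hg hcg
    by_contra hcon
    rw [not_or] at hcon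
    have h9 : ({e, f, g} : Finset E).card = 3 :=
      card_eq_three.2 ⟨e, f, g, hef, fun h => hcon.1 h.symm, fun h => hcon.2 h.symm, rfl⟩
    have h10 : ({e, f, g} : Finset E) ⊆ (P' ∪ Q' ∪ {e, t}).filter (fun e => Cr G S e) := by
      intro x hx
      rw [mem_filter]
      simp only [mem_insert, mem_singleton] at hx
      rcases hx with rfl | rfl | rfl
      · exact ⟨by simp, hcre⟩
      · exact ⟨by simp [hfQ], hfc⟩
      · exact ⟨hg, hcg⟩
    have h11 := card_le_card h10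
    unfold cn at h8
    omega
  have hPn : ∀ g ∈ P', ¬ Cr G S g := by
    intro g hg hcg
    rcases hkey g (by simp [hg]) hcg with rfl | rfl
    · exact heP hg
    · exact (disjoint_left.1 hd) hg hfQ
  have hQn : ∀ g ∈ Q', Cr G S g → g = f := by
    intro g hg hcg
    rcases hkey g (by simp [hg]) hcg with rfl | rfl
    · exact absurd hg heQ
    · rfl
  have htS : G.s t ∉ S ∧ G.t t ∉ S := by
    rcases hjt with ⟨h, h'⟩ | ⟨h, h'⟩
    · rw [h, h']; exact ⟨haS, hbS⟩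
    · rw [h, h']; exact ⟨hbS, haS⟩
  -- the end of `f` in `S`
  obtain ⟨w, hwS, hwf, hwf'⟩ : ∃ w ∈ S, (G.s f = w ∨ G.t f = w) ∧
      ((G.s f ∈ S → G.s f = w) ∧ (G.t f ∈ S → G.t f = w)) := by
    rcases hfc with h | h
    · exact ⟨G.s f, h.1, Or.inl rfl, fun _ => rfl, fun h' => absurd h' h.2⟩
    · exact ⟨G.t f, h.2, Or.inr rfl, fun h' => absurd h' h.1, fun _ => rfl⟩
  obtain ⟨F, hFA, hFS, hFc, hFr⟩ := h5 V E G A r S v w e f hev hSu
    (fun X hX hXS => hEc X hX (fun h => hSu (by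
      apply eq_univ_of_forall; intro x; apply hXS; rw [h]; exact mem_univ x)))
    (by omega) heA hfA hef hcre hfc hvS hwS (jn_or (jn_symm hje)) hwf
  -- the trimmed sets
  obtain ⟨P0, hP0⟩ : ∃ P0 : Finset E, P0 = P'.filter (fun g => ¬ (G.s g ∈ S ∧ G.t g ∈ S)) :=
    ⟨_, rfl⟩
  obtain ⟨Q0, hQ0⟩ : ∃ Q0 : Finset E, Q0 = Q'.filter (fun g => ¬ (G.s g ∈ S ∧ G.t g ∈ S)) :=
    ⟨_, rfl⟩
  have mP : ∀ g, g ∈ P0 ↔ g ∈ P' ∧ ¬ (G.s g ∈ S ∧ G.t g ∈ S) := by
    intro g; rw [hP0, mem_filter]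
  have mQ : ∀ g, g ∈ Q0 ↔ g ∈ Q' ∧ ¬ (G.s g ∈ S ∧ G.t g ∈ S) := by
    intro g; rw [hQ0, mem_filter]
  have hloop : ∀ (Z : Finset (Option {x : V // x ∉ S})) (g : E), Cr (mp G (ctr S)) Z g →
      ¬ (G.s g ∈ S ∧ G.t g ∈ S) := by
    intro Z g hg hgS
    have e1 : (mp G (ctr S)).s g = none := (ctr_none S _).2 hgS.1
    have e2 : (mp G (ctr S)).t g = none := (ctr_none S _).2 hgS.2
    unfold Cr at hg
    rw [e1, e2] at hg
    tauto
  have hcP0 : Co (mp G (ctr S)) P0 (ctr S u) (ctr S α) := by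
    intro Z hu hα'
    obtain ⟨g, hg, hcg⟩ := hcP Z hu hα'
    exact ⟨g, (mP g).2 ⟨hg, hloop Z g hcg⟩, hcg⟩
  have hcQ0 : Co (mp G (ctr S)) Q0 (ctr S v) (ctr S β) := by
    intro Z hu hα'
    obtain ⟨g, hg, hcg⟩ := hcQ Z hu hα'
    exact ⟨g, (mQ g).2 ⟨hg, hloop Z g hcg⟩, hcg⟩
  have hFn : ∀ g ∈ F, ∀ X : Finset V, S ⊆ X → ¬ Cr G X g := by
    intro g hg X hX hc
    have := hFS g hg
    rcases hc with hc | hc
    · exact hc.2 (hX this.2)
    · exact hc.1 (hX this.1)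
  refine ⟨P0, Q0 ∪ F, ?_, ?_, ?_, ?_, ?_, ?_, ?_, ⟨?_, ?_⟩, ?_⟩
  · intro g hg; exact hPA ((mP g).1 hg).1
  · intro g hg
    rcases mem_union.1 hg with hg | hg
    · exact hQA ((mQ g).1 hg).1
    · exact hFA hg
  · rw [disjoint_left]
    intro g hg hg'
    rcases mem_union.1 hg' with hg' | hg'
    · exact (disjoint_left.1 hd) ((mP g).1 hg).1 ((mQ g).1 hg').1
    · exact ((mP g).1 hg).2 (hFS g hg')
  · intro hg; exact heP ((mP e).1 hg).1
  · intro hg
    rcases mem_union.1 hg with hg | hg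
    · exact heQ ((mQ e).1 hg).1
    · exact hFn e hg S (Subset.refl S) hcre
  · intro hg; exact htP ((mP t).1 hg).1
  · intro hg
    rcases mem_union.1 hg with hg | hg
    · exact htQ ((mQ t).1 hg).1
    · exact htS.1 (hFS t hg).1
  · have := h4 V E G S ∅ P0 ∅ u α
      (fun g hg hcg => absurd hcg (hPn g ((mP g).1 hg).1)) (fun h => absurd h huS)
      (fun h => absurd h hα) (fun x hx => absurd hx (notMem_empty x)) hcP0
    rwa [union_empty] at this
  · refine h4 V E G S {v, w} Q0 F v β ?_ (fun _ => by simp) (fun h => absurd h hβ) ?_ hcQ0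
    · intro g hg hcg
      have hgf := hQn g ((mQ g).1 hg).1 hcg
      rw [hgf]
      simp only [mem_insert, mem_singleton]
      exact ⟨fun h => Or.inr (hwf'.1 h), fun h => Or.inr (hwf'.2 h)⟩
    · intro x hx y hy
      simp only [mem_insert, mem_singleton] at hx hy
      rcases hx with rfl | rfl <;> rcases hy with rfl | rfl
      · exact co_refl G F _
      · exact hFc
      · exact co_symm hFc
      · exact co_refl G F _
  · intro X hX hXu
    refine h2 V (cn G (A \ (P0 ∪ (Q0 ∪ F) ∪ {e, t}))) (h1 V E G _) r r S hev hev le_rfl hSne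
      hSu ?_ ?_ ?_ X hX hXu
    · intro Y hY hYS _
      refine (hFr Y hY hYS).trans (cn_le_of G _ _ Y ?_)
      intro g hg hcg
      have hend : G.s g ∈ S ∨ G.t g ∈ S := by
        rcases hcg with h | h
        · exact Or.inl (hYS h.1)
        · exact Or.inr (hYS h.2)
      have hcrs : ¬ (G.s g ∈ S ∧ G.t g ∈ S) → Cr G S g := by
        intro h
        unfold Cr
        tauto
      simp only [mem_sdiff, mem_union, mem_insert, mem_singleton, not_or] at hg ⊢
      refine ⟨hg.1, ⟨?_, ?_, hg.2.1⟩, hg.2.2.1, ?_⟩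
      · intro h
        exact hPn g ((mP g).1 h).1 (hcrs ((mP g).1 h).2)
      · intro h
        exact hg.2.2.2 (hQn g ((mQ g).1 h).1 (hcrs ((mQ g).1 h).2))
      · rintro rfl
        rcases hend with h | h
        · exact htS.1 h
        · exact htS.2 h
    · intro Y hSY hYu
      obtain ⟨Z, hZ⟩ := hc4 Y (Or.inl hSY)
      have hYne : Y.Nonempty := ⟨v, hSY hvS⟩
      have hZne : Z.Nonempty := by rw [← hc6, hZ]; exact hYne
      have hZu : Z ≠ univ := by
        intro h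
        exact hYu (by rw [← hZ]; exact (hc7 Z).2 h)
      have h9 := hr Z hZne hZu
      rw [hc1, hZ] at h9
      refine h9.trans (cn_le_of G _ _ Y ?_)
      intro g hg hcg
      simp only [mem_sdiff, mem_union, mem_insert, mem_singleton, not_or] at hg ⊢
      exact ⟨hg.1, ⟨fun h => hg.2.1.1 ((mP g).1 h).1, fun h => hg.2.1.2 ((mQ g).1 h).1,
        fun h => hFn g h Y hSY hcg⟩, hg.2.2⟩
    · have hfQ0 : f ∈ Q0 := by
        rw [mQ]
        refine ⟨hfQ, ?_⟩
        intro h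
        rcases hfc with h' | h'
        · exact h'.2 h.2
        · exact h'.1 h.1
      have := cn_two G A (A \ (P0 ∪ (Q0 ∪ F) ∪ {e, t})) S e f heA hfA hef hcre hfc
        sdiff_subset (by simp) (by simp [hfQ0])
      omega

end

theorem pf_GB2 (h1 : T_CUT) (h2 : T_GLU) (h3 : T_CTR) (h4 : T_TRN) (h5 : T_QCT) : T_GB2 := by
  intro V E _ _ _ G A r u v a b e t S hG hvS huS haS hbS hcS hIG
  have hG' := hG
  obtain ⟨hev, hEc, heA, htA, het, huv, hab, hje, hjt⟩ := hG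
  have hSne : S.Nonempty := ⟨v, hvS⟩
  obtain ⟨hc1, -, hc3⟩ := h3 V E G
  obtain ⟨hc4, hc5, hc6, hc7, -⟩ := hc3 S hSne
  have hGH : GH (mp G (ctr S)) A r (ctr S u) (ctr S v) (ctr S a) (ctr S b) e t := by
    refine ⟨hev, ?_, heA, htA, het, ?_, ?_, jn_mp G _ hje, jn_mp G _ hjt⟩
    · intro Z hZ hZu
      rw [hc1]
      exact hEc _ ((hc6 Z).2 hZ) (fun h => hZu ((hc7 Z).1 h))
    · intro h
      exact huv (ctr_inj S u v huS h)
    · intro h
      exact hab (ctr_inj S a b haS h)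
  obtain ⟨P', Q', hPA, hQA, hd, heP, heQ, htP, htQ, hor, hr⟩ := hIG _ A _ _ _ _ e t hGH
  rcases hor with ⟨hp, hq⟩ | ⟨hp, hq⟩
  · obtain ⟨P, Q, k1, k2, k3, k4, k5, k6, k7, k8, k9⟩ := aux h1 h2 h3 h4 h5 G A r u v a b e t S
      hG' hvS huS haS hbS hcS a b haS hbS P' Q' hPA hQA hd heP heQ htP htQ hp hq hr
    exact ⟨P, Q, k1, k2, k3, k4, k5, k6, k7, Or.inl k8, k9⟩
  · obtain ⟨P, Q, k1, k2, k3, k4, k5, k6, k7, k8, k9⟩ := aux h1 h2 h3 h4 h5 G A r u v a b e t S
      hG' hvS huS haS hbS hcS b a hbS haS P' Q' hPA hQA hd heP heQ htP htQ hp hq hr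
    exact ⟨P, Q, k1, k2, k3, k4, k5, k6, k7, Or.inr k8, k9⟩

end Pool.Agent.H57.WE
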