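import Pool.Agent.H71.WE.Targets

set_option autoImplicit false
set_option linter.unusedSectionVars false

namespace Pool.Agent.H57.WE

open Finset Pool.Agent.H71.WE

section
variable {V E : Type} [Fintype V] [DecidableEq V] [DecidableEq E]

theorem cn_le_of (G : Gr V E) (A1 A2 : Finset E) (X : Finset V)
    (h : ∀ g ∈ A1, Cr G X g → g ∈ A2) : cn G A1 X ≤ cn G A2 X := by
  unfold cn
  apply card_le_card
  intro g hg
  rw [mem_filter] at hg ⊢
  exact ⟨h g hg.1 hg.2, hg.2⟩

/-- two crossing edges are removed -/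
theorem cn_two (G : Gr V E) (A B : Finset E) (X : Finset V) (e t : E) (he : e ∈ A) (ht : t ∈ A)
    (hne : e ≠ t) (hce : Cr G X e) (hct : Cr G X t) (hB : B ⊆ A) (h1 : e ∉ B) (h2 : t ∉ B) :
    cn G B X + 2 ≤ cn G A X := by
  have h3 : cn G (A \ {e, t}) X + cn G {e, t} X = cn G A X := by
    apply cn_sdiff
    intro x hx
    rw [mem_insert, mem_singleton] at hx
    rcases hx with rfl | rfl
    · exact he
    · exact ht
  have h4 : cn G B X ≤ cn G (A \ {e, t}) X := by
    apply cn_mono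
    intro x hx
    rw [mem_sdiff]
    refine ⟨hB hx, ?_⟩
    rw [mem_insert, mem_singleton]
    rintro (rfl | rfl)
    · exact h1 hx
    · exact h2 hx
  have h5 : cn G {e, t} X = 2 := by
    unfold cn
    have : ({e, t} : Finset E).filter (fun e => Cr G X e) = {e, t} := by
      apply filter_true_of_mem
      intro x hx
      rw [mem_insert, mem_singleton] at hx
      rcases hx with rfl | rfl
      · exact hce
      · exact hct
    rw [this, card_pair hne]
  omega

theorem jn_or {G : Gr V E} {e : E} {a b : V} (h : Jn G e a b) : G.s e = a ∨ G.t e = a := by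
  rcases h with h | h
  · exact Or.inl h.1
  · exact Or.inr h.2

end

theorem pf_GB3 (h1 : T_CUT) (h2 : T_GLU) (h3 : T_QCT) : T_GB3 := by
  intro V E _ _ _ G A r u v a b e t S hG hvS huS haS hbS hcS
  obtain ⟨hev, hEc, heA, htA, het, huv, hab, hje, hjt⟩ := hG
  have hSu : S ≠ univ := by
    intro h; rw [h] at huS; exact huS (mem_univ u)
  have hSne : S.Nonempty := ⟨v, hvS⟩
  have hcre : Cr G S e := (jn_cr hje S).2 (Or.inr ⟨huS, hvS⟩)
  have hcrt : Cr G S t := (jn_cr hjt S).2 (Or.inl ⟨haS, hbS⟩)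
  have hScne : Sᶜ ≠ univ := by
    intro h
    have : v ∈ Sᶜ := by rw [h]; exact mem_univ v
    exact (mem_compl.1 this) hvS
  obtain ⟨F1, hF1A, hF1S, hF1c, hF1r⟩ := h3 V E G A r S v a e t hev hSu
    (fun X hX hXS => hEc X hX (fun h => hSu (by
      apply eq_univ_of_forall; intro x; apply hXS; rw [h]; exact mem_univ x)))
    (by omega) heA htA het hcre hcrt hvS haS (jn_or (jn_symm hje)) (jn_or hjt)
  obtain ⟨F2, hF2A, hF2S, hF2c, hF2r⟩ := h3 V E G A r Sᶜ u b e t hev hScne
    (fun X hX hXS => hEc X hX (fun h => hScne (by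
      apply eq_univ_of_forall; intro x; apply hXS; rw [h]; exact mem_univ x)))
    (by rw [cn_compl]; omega) heA htA het ((cr_compl G S e).2 hcre) ((cr_compl G S t).2 hcrt)
    (mem_compl.2 huS) (mem_compl.2 hbS) (jn_or hje) (jn_or (jn_symm hjt))
  have hnc1 : ∀ g ∈ F1, ∀ X : Finset V, S ⊆ X → ¬ Cr G X g := by
    intro g hg X hX hc
    have := hF1S g hg
    rcases hc with hc | hc
    · exact hc.2 (hX this.2)
    · exact hc.1 (hX this.1)
  have hnc2 : ∀ g ∈ F2, ∀ X : Finset V, X ⊆ S → ¬ Cr G X g := by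
    intro g hg X hX hc
    have := hF2S g hg
    rw [mem_compl, mem_compl] at this
    rcases hc with hc | hc
    · exact this.1 (hX hc.1)
    · exact this.2 (hX hc.2)
  have hF1S' : ∀ g ∈ F1, ¬ Cr G S g := fun g hg => hnc1 g hg S (Subset.refl S)
  have hF2S' : ∀ g ∈ F2, ¬ Cr G S g := fun g hg => hnc2 g hg S (Subset.refl S)
  refine ⟨F2, F1, hF2A, hF1A, ?_, fun h => hF2S' e h hcre, fun h => hF1S' e h hcre,
    fun h => hF2S' t h hcrt, fun h => hF1S' t h hcrt, Or.inr ⟨hF2c, hF1c⟩, ?_⟩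
  · rw [disjoint_left]
    intro g hg hg'
    have := hF2S g hg
    rw [mem_compl] at this
    exact this.1 (hF1S g hg').1
  · intro X hX hXu
    refine h2 V (cn G (A \ (F2 ∪ F1 ∪ {e, t}))) (h1 V E G _) r r S hev hev le_rfl hSne hSu
      ?_ ?_ ?_ X hX hXu
    · intro Y hY hYS _
      refine (hF1r Y hY hYS).trans (cn_le_of G _ _ Y ?_)
      intro g hg hcg
      simp only [mem_sdiff, mem_union, mem_insert, mem_singleton, not_or] at hg ⊢
      exact ⟨hg.1, ⟨fun h => hnc2 g h Y hYS hcg, hg.2.1⟩, hg.2.2⟩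
    · intro Y hSY hYu
      have hYc : Yᶜ.Nonempty := by
        rw [nonempty_iff_ne_empty]
        intro h
        exact hYu (by simpa using h)
      have hYcS : Yᶜ ⊆ Sᶜ := compl_subset_compl.2 hSY
      have h4 := hF2r Yᶜ hYc hYcS
      rw [cn_compl] at h4
      refine h4.trans (cn_le_of G _ _ Y ?_)
      intro g hg hcg
      simp only [mem_sdiff, mem_union, mem_insert, mem_singleton, not_or] at hg ⊢
      exact ⟨hg.1, ⟨hg.2.1, fun h => hnc1 g h Y hSY hcg⟩, hg.2.2⟩
    · have := cn_two G A (A \ (F2 ∪ F1 ∪ {e, t})) S e t heA htA het hcre hcrt sdiff_subset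
        (by simp) (by simp)
      omega

end Pool.Agent.H57.WE
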